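import Pool.Agent.R294.IFS6

/-!
# Super-exponential condensation without exact overlaps and without sub-conjugacy

For every `ε > 0` there is an analytic IFS (four Möbius maps) on `[0,1]` with super-exponential
condensation, without exact overlaps, which is not sub-conjugated to a self-similar IFS.
-/

set_option autoImplicit false

namespace Pool.Agent.Results.MP_6f21ce_an.NotSubconjugate

open Set Filter Pool.Agent.R294.IFS

/-- The open neighbourhood `{z : dist (z, [0,1]) < δ}` of `[0,1]` in the complex plane. -/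
def B (δ : ℝ) : Set ℂ := Metric.thickening δ ((fun x : ℝ => (x : ℂ)) '' Icc 0 1)

/-- `f` is an analytic IFS (for `ε`): at least two maps of the line, mapping `I = [0,1]` to itself,
each with an analytic extension `F` to `B (2ε)` which maps the closure of `B ε` into `B ε` and
satisfies `0 < |F'| < 1` there. -/
structure IsAnalyticIFS (ε : ℝ) {N : ℕ} (f : Fin N → ℝ → ℝ) : Prop where
  two_le : 2 ≤ N
  mapsTo : ∀ i, MapsTo (f i) (Icc 0 1) (Icc 0 1)
  ext : ∀ i, ∃ F : ℂ → ℂ, AnalyticOnNhd ℂ F (B (2 * ε)) ∧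
    (∀ x : ℝ, (x : ℂ) ∈ B (2 * ε) → F x = f i x) ∧
    MapsTo F (closure (B ε)) (B ε) ∧
    ∀ z ∈ closure (B ε), 0 < ‖deriv F z‖ ∧ ‖deriv F z‖ < 1

/-- The composition `f_{i_1} ∘ ⋯ ∘ f_{i_n}` along a finite word. -/
def word {N : ℕ} (f : Fin N → ℝ → ℝ) (w : List (Fin N)) (x : ℝ) : ℝ :=
  w.foldr (fun i y => f i y) x

/-- Two distinct finite words with the same map on `I`. -/
def HasExactOverlap {N : ℕ} (f : Fin N → ℝ → ℝ) : Prop :=
  ∃ i j : List (Fin N), i ≠ j ∧ EqOn (word f i) (word f j) (Icc 0 1)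

/-- The exponential separation condition. -/
def ESC {N : ℕ} (f : Fin N → ℝ → ℝ) : Prop :=
  ∃ c : ℝ, 0 < c ∧ ∃ᶠ n : ℕ in atTop, ∀ i j : List (Fin N), i.length = n → j.length = n → i ≠ j →
    c ^ n ≤ sSup ((fun x => |word f i x - word f j x|) '' Icc 0 1)

/-- Sub-conjugacy to a self-similar IFS: two distinct words of the same length are simultaneously
conjugated on `I` to similarities by an injective analytic `g`. -/
def IsSubconjugate {N : ℕ} (f : Fin N → ℝ → ℝ) : Prop :=
  ∃ i j : List (Fin N), i ≠ j ∧ i.length = j.length ∧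
    ∃ g : ℝ → ℝ, AnalyticOn ℝ g (Icc 0 1) ∧ InjOn g (Icc 0 1) ∧
    ∃ l₁ l₂ t₁ t₂ : ℝ, l₁ ∈ Ioo (-1) 1 ∧ l₁ ≠ 0 ∧ l₂ ∈ Ioo (-1) 1 ∧ l₂ ≠ 0 ∧
      (∀ x ∈ Icc (0:ℝ) 1, g (word f i x) = l₁ * g x + t₁) ∧
      (∀ x ∈ Icc (0:ℝ) 1, g (word f j x) = l₂ * g x + t₂)

/-- **Negative answer to Q1**, for every `ε > 0`. -/
theorem result : ∀ ε : ℝ, 0 < ε → ∃ (N : ℕ) (f : Fin N → ℝ → ℝ),
    IsAnalyticIFS ε f ∧ ¬ ESC f ∧ ¬ HasExactOverlap f ∧ ¬ IsSubconjugate f := by
  intro ε hε
  set A : ℝ := 8 * ε + 8 / ε + 4 with hAdef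
  have h8 : 0 < 8 / ε := by positivity
  have hA : 2 ≤ A := by rw [hAdef]; linarith
  choose P hP using fun t => exists_P hA t
  have hP' : ∀ t, P t ∈ Icc (0:ℝ) 1 := fun t => IsP.mem hA (hP t)
  have hs₁ : (0:ℝ) < 1 / (A + 5 + 4 * ε) := by positivity
  obtain ⟨s, hs0, hss, hgen⟩ := exists_generic hA hP hs₁
  have hsA : s * (A + 5 + 4 * ε) ≤ 1 := by
    rwa [le_div_iff₀ (by positivity)] at hss
  have hsε : 0 ≤ s * ε := by positivity
  have hsA0 : 0 ≤ s * A := by positivity
  have hs1 : s ≤ 1 := by nlinarith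
  -- the four letters
  have hcard : Fintype.card (Bool × Bool) = 4 := by simp
  let e : Fin 4 ≃ Bool × Bool := (Fintype.equivFinOfCardEq hcard).symm
  have hword : ∀ (w : List (Fin 4)) (x : ℝ),
      word (fun i => ff A P s (e i)) w x = fw A P s (w.map e) x := by
    intro w x
    induction w with
    | nil => rfl
    | cons i w ih =>
      change ff A P s (e i) (word (fun i => ff A P s (e i)) w x) = _
      rw [ih]; rfl
  refine ⟨4, fun i => ff A P s (e i), ?_, ?_, ?_, ?_⟩
  · refine ⟨by norm_num, fun i x hx => ff_mem hA hP' hs0.le (e i) hx, fun i => ?_⟩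
    rcases he : e i with ⟨t, d⟩
    have ha1 : A ≤ aa A t := aa_ge A t
    have ha2 : aa A t ≤ A + 2 := by unfold aa; split_ifs <;> linarith
    have haε : 4 / ε < aa A t := by
      have : 4 / ε = (8 / ε) / 2 := by ring
      linarith
    have ha4 : 8 * ε + 4 ≤ aa A t := by linarith
    cases d
    · obtain ⟨h1, h2, h3, h4⟩ := Fc_good (a := aa A t) (P := P t) (σ := 0) hε (hP' t) le_rfl
        (by simp) (by simp) ha4 haε
      refine ⟨Fc (aa A t) (P t) 0, h1, fun x hx => ?_, h3, h4⟩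
      rw [h2 x hx]
      simp only [ff, D_zero, F]
      rfl
    · obtain ⟨h1, h2, h3, h4⟩ := Fc_good (a := aa A t) (P := P t) (σ := s) hε (hP' t) hs0.le
        (by nlinarith) (by nlinarith) ha4 haε
      refine ⟨Fc (aa A t) (P t) s, h1, fun x hx => ?_, h3, h4⟩
      rw [h2 x hx]
      simp only [ff, F]
      rfl
  · rintro ⟨c, hc, hfreq⟩
    obtain ⟨n₀, hn₀⟩ := condensation hA hs0.le hs1 hP hc
    obtain ⟨n, hn, hsep⟩ := (frequently_atTop.1 hfreq) n₀
    obtain ⟨i, j, hi, hj, hij, b, hb, hB⟩ := hn₀ n hn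
    have h1 := hsep (i.map e.symm) (j.map e.symm) (by simpa using hi) (by simpa using hj)
      (fun h => hij (List.map_injective_iff.2 e.symm.injective h))
    have h2 : sSup ((fun x => |word (fun i => ff A P s (e i)) (i.map e.symm) x -
        word (fun i => ff A P s (e i)) (j.map e.symm) x|) '' Icc 0 1) ≤ b := by
      apply csSup_le
      · exact ⟨_, mem_image_of_mem _ (left_mem_Icc.2 zero_le_one)⟩
      · rintro _ ⟨x, hx, rfl⟩
        simp only [hword, List.map_map, Equiv.self_comp_symm, List.map_id]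
        exact hB x hx
    linarith
  · rintro ⟨i, j, hij, h⟩
    refine no_overlap hA hP' hs0.le hgen (i := i.map e) (j := j.map e)
      (fun h => hij (List.map_injective_iff.2 e.injective h)) ?_
    intro x hx
    rw [← hword, ← hword]
    exact h hx
  · rintro ⟨i, j, hij, hl, g, hg, hinj, l₁, l₂, t₁, t₂, -, -, -, -, h1, h2⟩
    refine no_subconj hA hP' hs0.le hgen (i := i.map e) (j := j.map e) (by simpa using hl)
      (fun h => hij (List.map_injective_iff.2 e.injective h))
      (isOpen_Ioo.analyticOn_iff_analyticOnNhd.1 (hg.mono Ioo_subset_Icc_self)) hinj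
      (fun x hx => by rw [← hword]; exact h1 x hx) (fun x hx => by rw [← hword]; exact h2 x hx)

end Pool.Agent.Results.MP_6f21ce_an.NotSubconjugate
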